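import Mathlib

/-! MP_ff6db8_an, own theorem. Bounded uniformly continuous real functions. -/

set_option autoImplicit false

namespace Pool.Agent.FF6Rough

open Finset

/-- bounded and uniformly continuous -/
def BUC {X : Type} [PseudoMetricSpace X] (f : X → ℝ) : Prop :=
  (∃ C : ℝ, ∀ x, |f x| ≤ C) ∧ UniformContinuous f

variable {X : Type} [PseudoMetricSpace X]

theorem BUC.const (a : ℝ) : BUC (fun _ : X => a) :=
  ⟨⟨|a|, fun _ => le_rfl⟩, uniformContinuous_const⟩

theorem BUC.add {f g : X → ℝ} (hf : BUC f) (hg : BUC g) : BUC (fun x => f x + g x) := by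
  obtain ⟨⟨C, hC⟩, hf⟩ := hf
  obtain ⟨⟨D, hD⟩, hg⟩ := hg
  exact ⟨⟨C + D, fun x => (abs_add_le _ _).trans (add_le_add (hC x) (hD x))⟩, hf.add hg⟩

theorem BUC.mul {f g : X → ℝ} (hf : BUC f) (hg : BUC g) : BUC (fun x => f x * g x) := by
  obtain ⟨⟨C, hC⟩, hf⟩ := hf
  obtain ⟨⟨D, hD⟩, hg⟩ := hg
  refine ⟨⟨C * D, fun x => ?_⟩, ?_⟩
  · rw [abs_mul]
    exact mul_le_mul (hC x) (hD x) (abs_nonneg _) ((abs_nonneg _).trans (hC x))
  · rw [Metric.uniformContinuous_iff] at hf hg ⊢
    intro ε hε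
    obtain ⟨δ₁, hδ₁, h₁⟩ := hf (ε / (2 * (|D| + 1))) (by positivity)
    obtain ⟨δ₂, hδ₂, h₂⟩ := hg (ε / (2 * (|C| + 1))) (by positivity)
    refine ⟨min δ₁ δ₂, lt_min hδ₁ hδ₂, fun {x y} hxy => ?_⟩
    have a1 := h₁ (hxy.trans_le (min_le_left _ _))
    have a2 := h₂ (hxy.trans_le (min_le_right _ _))
    rw [Real.dist_eq] at a1 a2 ⊢
    have e : f x * g x - f y * g y = (f x - f y) * g x + f y * (g x - g y) := by ring
    have b1 : |g x| ≤ |D| + 1 := by
      have := (hD x).trans (le_abs_self D)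
      linarith
    have b2 : |f y| ≤ |C| + 1 := by
      have := (hC y).trans (le_abs_self C)
      linarith
    have c1 : |f x - f y| * |g x| < ε / 2 := by
      have : ε / (2 * (|D| + 1)) * (|D| + 1) = ε / 2 := by
        field_simp
      calc |f x - f y| * |g x| ≤ |f x - f y| * (|D| + 1) :=
            mul_le_mul_of_nonneg_left b1 (abs_nonneg _)
        _ < ε / (2 * (|D| + 1)) * (|D| + 1) := mul_lt_mul_of_pos_right a1 (by positivity)
        _ = ε / 2 := this
    have c2 : |f y| * |g x - g y| < ε / 2 := by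
      have : (|C| + 1) * (ε / (2 * (|C| + 1))) = ε / 2 := by
        field_simp
      calc |f y| * |g x - g y| ≤ (|C| + 1) * |g x - g y| :=
            mul_le_mul_of_nonneg_right b2 (abs_nonneg _)
        _ < (|C| + 1) * (ε / (2 * (|C| + 1))) := mul_lt_mul_of_pos_left a2 (by positivity)
        _ = ε / 2 := this
    rw [e]
    calc |(f x - f y) * g x + f y * (g x - g y)| ≤ |f x - f y| * |g x| + |f y| * |g x - g y| := by
          refine (abs_add_le _ _).trans ?_
          rw [abs_mul, abs_mul]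
      _ < ε := by linarith

theorem BUC.sum {ι : Type} (s : Finset ι) (f : ι → X → ℝ) (h : ∀ i ∈ s, BUC (f i)) :
    BUC (fun x => ∑ i ∈ s, f i x) := by
  classical
  induction s using Finset.induction_on with
  | empty => simpa using BUC.const (X := X) 0
  | insert a s ha ih =>
    have h1 := (h a (Finset.mem_insert_self _ _)).add
      (ih fun i hi => h i (Finset.mem_insert_of_mem hi))
    simpa [Finset.sum_insert ha] using h1

/-- composition with a bounded uniformly continuous function of one variable -/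
theorem BUC.comp {g : ℝ → ℝ} (hg : BUC g) {z : X → ℝ} (hz : UniformContinuous z) :
    BUC (fun x => g (z x)) := by
  obtain ⟨⟨C, hC⟩, hg⟩ := hg
  exact ⟨⟨C, fun x => hC _⟩, hg.comp hz⟩

/-- uniform limits -/
theorem uc_of_approx {f : X → ℝ} (h : ∀ ε : ℝ, 0 < ε → ∃ g : X → ℝ, UniformContinuous g ∧
    ∀ x, |f x - g x| ≤ ε) : UniformContinuous f := by
  rw [Metric.uniformContinuous_iff]
  intro ε hε
  obtain ⟨g, hg, hfg⟩ := h (ε / 4) (by positivity)
  rw [Metric.uniformContinuous_iff] at hg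
  obtain ⟨δ, hδ, hg⟩ := hg (ε / 4) (by positivity)
  refine ⟨δ, hδ, fun {x y} hxy => ?_⟩
  have h1 := hg hxy
  rw [Real.dist_eq] at h1 ⊢
  have h2 := hfg x
  have h3 := hfg y
  rw [abs_le] at h2 h3
  rw [abs_lt] at h1 ⊢
  constructor <;> linarith [h1.1, h1.2, h2.1, h2.2, h3.1, h3.2]

/-- a continuous function of `cos (t / c)` is uniformly continuous and bounded -/
theorem buc_cos {g : ℝ → ℝ} (hg : Continuous g) (c : ℝ) :
    BUC (fun t : ℝ => g (Real.cos (t / c))) := by
  constructor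
  · obtain ⟨C, hC⟩ := isCompact_Icc.exists_bound_of_continuousOn
      (s := Set.Icc (-1 : ℝ) 1) hg.continuousOn
    exact ⟨C, fun t => by simpa [Real.norm_eq_abs] using hC _ (Real.cos_mem_Icc _)⟩
  have h1 : UniformContinuousOn g (Set.Icc (-1) 1) :=
    isCompact_Icc.uniformContinuousOn_of_continuous hg.continuousOn
  rw [Metric.uniformContinuousOn_iff] at h1
  rw [Metric.uniformContinuous_iff]
  intro ε hε
  obtain ⟨δ, hδ, h⟩ := h1 ε hε
  have hc : 0 ≤ |c⁻¹| := abs_nonneg _
  refine ⟨δ / (|c⁻¹| + 1), by positivity, fun {t s} hts => ?_⟩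
  refine h _ (Real.cos_mem_Icc _) _ (Real.cos_mem_Icc _) ?_
  have h2 := Real.lipschitzWith_cos.dist_le_mul (t / c) (s / c)
  have h3 : dist (t / c) (s / c) = |t - s| * |c⁻¹| := by
    rw [Real.dist_eq, ← sub_div, div_eq_mul_inv, abs_mul]
  rw [h3] at h2
  rw [Real.dist_eq] at hts
  have h4 : |t - s| * (|c⁻¹| + 1) < δ := by
    rwa [lt_div_iff₀ (by positivity)] at hts
  have h5 : 0 ≤ |t - s| := abs_nonneg _
  simp only [NNReal.coe_one, one_mul] at h2
  nlinarith

/-- the sine -/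
theorem buc_sin (c : ℝ) : BUC (fun t : ℝ => Real.sin (t / c)) := by
  constructor
  · exact ⟨1, fun t => Real.abs_sin_le_one _⟩
  rw [Metric.uniformContinuous_iff]
  intro ε hε
  have hc : 0 ≤ |c⁻¹| := abs_nonneg _
  refine ⟨ε / (|c⁻¹| + 1), by positivity, fun {t s} hts => ?_⟩
  have h2 := Real.lipschitzWith_sin.dist_le_mul (t / c) (s / c)
  have h3 : dist (t / c) (s / c) = |t - s| * |c⁻¹| := by
    rw [Real.dist_eq, ← sub_div, div_eq_mul_inv, abs_mul]
  rw [h3] at h2
  rw [Real.dist_eq] at hts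
  have h4 : |t - s| * (|c⁻¹| + 1) < ε := by
    rwa [lt_div_iff₀ (by positivity)] at hts
  have h5 : 0 ≤ |t - s| := abs_nonneg _
  simp only [NNReal.coe_one, one_mul] at h2
  nlinarith

end Pool.Agent.FF6Rough
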