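import Pool.Agent.FF6Rough.Unif
import Pool.Agent.MPff6db8.DualPC

/-! MP_ff6db8_an, own theorem. The function on the space, with a uniformly continuous Gateaux
derivative and uniform roughness. (The first half is the proof of `exists_function` in
`Pool/Agent/MPff6db8/Fun.lean` by helper25.) -/

set_option autoImplicit false

namespace Pool.Agent.FF6Rough

open Finset Pool.Agent.MPff6db8

theorem exists_rough {P : Par} (S : Stage P) (hQ : ∀ k i j, BUC (S.Q k i j))
    (hQ' : ∀ k i j, BUC (S.Q' k i j)) {X : Type} [NormedAddCommGroup X]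
    [NormedSpace ℝ X] [CompleteSpace X]
    (ι : (Nd →₀ ℝ) →ₗ[ℝ] X) (hd : DenseRange ι) (hι : ∀ x, ‖ι x‖ = P.q x) :
    ∃ (f : X → ℝ) (D : X → X →L[ℝ] ℝ), (∀ x y, |f x - f y| ≤ 2 * ‖x - y‖) ∧
      (∀ x, |f x| ≤ 2 * S.η 0) ∧
      (∀ x v, HasLineDerivAt ℝ f (D x v) x v) ∧
      (∀ v, UniformContinuous fun x => D x v) ∧
      ∀ k x, ∃ h : X, ‖h‖ ≤ 56 * S.η k ∧
        S.η k / 8 ≤ |f (x + (2 : ℝ) • h) - 2 * f (x + h) + f x| := by
  obtain ⟨Φ, hΦ⟩ := exists_lim S
  -- coordinates
  have hco : ∀ ν : Nd, ∃ L : X →L[ℝ] ℝ, P.Val ν → ∀ h : Nd →₀ ℝ, L (ι h) = h ν := by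
    intro ν
    by_cases hν : P.Val ν
    · obtain ⟨C, hC, hb⟩ := P.coord_bound ν hν
      obtain ⟨L, hL, -⟩ := extend_fun ι hd hι (Finsupp.lapply ν) C hC (fun x => hb x)
      exact ⟨L, fun _ h => hL h⟩
    · exact ⟨0, fun h => absurd h hν⟩
  choose co hco using hco
  set zz : X → Nd → ℝ := fun x ν => co ν x with hzz
  have hzzc : Continuous zz := continuous_pi fun ν => (co ν).continuous
  have hzu : ∀ ν, P.Val ν → UniformContinuous fun x => zz x ν := fun ν _ => (co ν).uniformContinuous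
  set f : X → ℝ := fun x => Φ 0 [] [] (zz x) with hf
  have hfc : Continuous f := (hΦ.cont 0 [] []).comp hzzc
  have key : ∀ (x : X) (t : ℝ) (h : Nd →₀ ℝ),
      f (x + t • ι h) = Φ 0 [] [] (fun ν => zz x ν + t * h ν) := by
    intro x t h
    refine root_congr S Φ hΦ _ _ fun ν hν => ?_
    simp only [hzz, map_add, map_smul, smul_eq_mul]
    rw [hco ν hν h]
  -- derivatives in the directions `ι h`
  have hder : ∀ (x : X) (h : Nd →₀ ℝ),
      HasDerivAt (fun t : ℝ => f (x + t • ι h)) (P.pair (BB S Φ (zz x)) h) 0 := by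
    intro x h
    have := hasDerivAt_BB S Φ hΦ (zz x) h
    refine this.congr_of_eventuallyEq (Filter.Eventually.of_forall fun t => ?_)
    exact key x t h
  have hbd : ∀ (x : X) (h : Nd →₀ ℝ), |P.pair (BB S Φ (zz x)) h| ≤ 2 * ‖ι h‖ := by
    intro x h
    rw [hι]
    exact P.abs_pair_le (BB_inW S Φ hΦ (zz x)) h
  have hder' : ∀ (x : X) (h : Nd →₀ ℝ) (t : ℝ),
      HasDerivAt (fun t : ℝ => f (x + t • ι h)) (P.pair (BB S Φ (zz (x + t • ι h))) h) t := by
    intro x h t
    have h1 := hder (x + t • ι h) h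
    have h2 : HasDerivAt (fun s : ℝ => s - t) 1 t := (hasDerivAt_id t).sub_const t
    have h3 : HasDerivAt (fun s : ℝ => f (x + t • ι h + s • ι h))
        (P.pair (BB S Φ (zz (x + t • ι h))) h) (t - t) := by
      rw [sub_self]
      exact h1
    have h4 := HasDerivAt.comp (h := fun s : ℝ => s - t)
      (h₂ := fun s : ℝ => f (x + t • ι h + s • ι h)) t h3 h2
    rw [mul_one] at h4
    refine h4.congr_of_eventuallyEq (Filter.Eventually.of_forall fun s => ?_)
    simp only [Function.comp]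
    congr 1
    rw [add_assoc, ← add_smul]
    congr 2
    ring
  have hlip1 : ∀ (x : X) (h : Nd →₀ ℝ), |f (x + ι h) - f x| ≤ 2 * ‖ι h‖ := by
    intro x h
    have := norm_image_sub_le_of_norm_deriv_le_segment_01' (f := fun t : ℝ => f (x + t • ι h))
      (f' := fun t => P.pair (BB S Φ (zz (x + t • ι h))) h) (C := 2 * ‖ι h‖)
      (fun t _ => (hder' x h t).hasDerivWithinAt) (fun t _ => by
        rw [Real.norm_eq_abs]
        exact hbd _ h)
    simpa using this
  have hlip2 : ∀ (x v : X), |f (x + v) - f x| ≤ 2 * ‖v‖ := by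
    intro x v
    refine hd.induction_on (p := fun v => |f (x + v) - f x| ≤ 2 * ‖v‖) v ?_ (fun h => hlip1 x h)
    refine isClosed_le ?_ ?_
    · exact ((hfc.comp (continuous_const.add continuous_id)).sub continuous_const).abs
    · exact continuous_const.mul continuous_norm
  have hL : ∀ x : X, ∃ L : X →L[ℝ] ℝ, (∀ h, L (ι h) = P.pair (BB S Φ (zz x)) h) ∧ ‖L‖ ≤ 2 := by
    intro x
    have hW := BB_inW S Φ hΦ (zz x)
    let ℓ : (Nd →₀ ℝ) →ₗ[ℝ] ℝ :=
      { toFun := fun h => P.pair (BB S Φ (zz x)) h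
        map_add' := fun h h' => P.pair_add _ h h'
        map_smul' := fun a h => by simpa using P.pair_smul _ a h }
    exact extend_fun ι hd hι ℓ 2 (by norm_num) (fun h => P.abs_pair_le hW h)
  choose D hD hDn using hL
  refine ⟨f, D, ?_, fun x => hΦ.bound 0 [] [] (zz x), ?_, ?_, ?_⟩
  · intro x y
    have := hlip2 y (x - y)
    rwa [add_sub_cancel] at this
  · intro x v
    unfold HasLineDerivAt
    rw [hasDerivAt_iff_isLittleO, Asymptotics.isLittleO_iff]
    intro c hc
    obtain ⟨h, hh⟩ := hd.exists_dist_lt v (show 0 < c / 8 by linarith)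
    rw [dist_eq_norm] at hh
    have h1 := hder x h
    rw [hasDerivAt_iff_isLittleO, Asymptotics.isLittleO_iff] at h1
    have h2 := h1 (show 0 < c / 2 by linarith)
    filter_upwards [h2] with t ht
    simp only [zero_smul, add_zero, sub_zero, smul_eq_mul, Real.norm_eq_abs] at ht ⊢
    have h3 : |f (x + t • v) - f (x + t • ι h)| ≤ 2 * (|t| * ‖v - ι h‖) := by
      have := hlip2 (x + t • ι h) (t • (v - ι h))
      rw [norm_smul, Real.norm_eq_abs] at this
      have e : x + t • ι h + t • (v - ι h) = x + t • v := by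
        rw [add_assoc, ← smul_add]
        congr 2
        abel
      rw [e] at this
      exact this
    have h4 : |t * D x v - t * D x (ι h)| ≤ 2 * (|t| * ‖v - ι h‖) := by
      rw [← mul_sub, ← map_sub, abs_mul]
      have := (D x).le_opNorm (v - ι h)
      rw [Real.norm_eq_abs] at this
      have h5 : |D x (v - ι h)| ≤ 2 * ‖v - ι h‖ :=
        this.trans (mul_le_mul_of_nonneg_right (hDn x) (norm_nonneg _))
      nlinarith [abs_nonneg t]
    rw [hD x h] at h4
    have h7 : |t| * ‖v - ι h‖ ≤ |t| * (c / 8) := mul_le_mul_of_nonneg_left hh.le (abs_nonneg t)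
    have h8 : f (x + t • v) - f x - t * D x v = (f (x + t • v) - f (x + t • ι h)) +
        (f (x + t • ι h) - f x - t * P.pair (BB S Φ (zz x)) h) -
        (t * D x v - t * P.pair (BB S Φ (zz x)) h) := by ring
    rw [h8]
    calc _ ≤ |f (x + t • v) - f (x + t • ι h)| +
        |f (x + t • ι h) - f x - t * P.pair (BB S Φ (zz x)) h| +
        |t * D x v - t * P.pair (BB S Φ (zz x)) h| := by
          refine (abs_sub _ _).trans ?_
          gcongr
          exact abs_add_le _ _
      _ ≤ 2 * (|t| * ‖v - ι h‖) + c / 2 * |t| + 2 * (|t| * ‖v - ι h‖) := by gcongr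
      _ ≤ c * |t| := by nlinarith [abs_nonneg t]
  · intro v
    refine uc_of_approx fun ε hε => ?_
    obtain ⟨h, hh⟩ := hd.exists_dist_lt v (show 0 < ε / 2 by linarith)
    rw [dist_eq_norm] at hh
    refine ⟨fun x => P.pair (BB S Φ (zz x)) h, (pair_buc S Φ hΦ hQ hQ' zz hzu h).2, fun x => ?_⟩
    show |D x v - P.pair (BB S Φ (zz x)) h| ≤ ε
    rw [← hD x h, ← map_sub]
    have := (D x).le_opNorm (v - ι h)
    rw [Real.norm_eq_abs] at this
    have h5 : |D x (v - ι h)| ≤ 2 * ‖v - ι h‖ :=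
      this.trans (mul_le_mul_of_nonneg_right (hDn x) (norm_nonneg _))
    linarith
  · intro k x
    obtain ⟨h, hq, hs⟩ := second_diff S Φ hΦ (zz x) k
    have e1 := key x 2 h
    have e2 := key x 1 h
    simp only [one_smul, one_mul] at e2
    rw [← e1, ← e2] at hs
    have hfx : Φ 0 [] [] (zz x) = f x := rfl
    rw [hfx] at hs
    rw [← hι] at hq
    exact ⟨ι h, hq, hs⟩

end Pool.Agent.FF6Rough
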