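import Pool.Agent.MPff6db8.Defs
import Pool.Agent.FF6Rough.Buc

/-! MP_ff6db8_an, own theorem. Existence of the stage data with uniformly continuous derivatives
(the proof of helper55 in `Pool/Agent/MPff6db8/StageEx.lean`, with one more conclusion). -/

set_option autoImplicit false

namespace Pool.Agent.FF6Rough

open Finset Pool.Agent.MPff6db8

/-- the thresholds -/
private noncomputable def sg (r n i m : ℕ) (s : ℝ) : ℝ :=
  if m = 0 then 1 else if n ≤ m then 0 else
    Real.smoothTransition ((s + 1) * n * r / 2 - (r * m + i))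

private theorem sg_nonneg (r n i m : ℕ) (s : ℝ) : 0 ≤ sg r n i m s := by
  unfold sg
  split_ifs
  · norm_num
  · exact le_rfl
  · exact Real.smoothTransition.nonneg _

private theorem sg_le_one (r n i m : ℕ) (s : ℝ) : sg r n i m s ≤ 1 := by
  unfold sg
  split_ifs
  · exact le_rfl
  · norm_num
  · exact Real.smoothTransition.le_one _

private theorem sg_anti (r n i m : ℕ) (s : ℝ) : sg r n i (m + 1) s ≤ sg r n i m s := by
  by_cases hm : m = 0
  · have h1 : sg r n i m s = 1 := by simp [sg, hm]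
    rw [h1]; exact sg_le_one _ _ _ _ _
  · by_cases hn : n ≤ m + 1
    · have h1 : sg r n i (m + 1) s = 0 := by simp [sg, hn]
      rw [h1]; exact sg_nonneg _ _ _ _ _
    · have hn' : ¬ n ≤ m := by omega
      have h1 : sg r n i (m + 1) s
          = Real.smoothTransition ((s + 1) * n * r / 2 - (r * ((m + 1 : ℕ) : ℝ) + i)) := by
        simp [sg, hn]
      have h2 : sg r n i m s
          = Real.smoothTransition ((s + 1) * n * r / 2 - (r * (m : ℝ) + i)) := by
        simp [sg, hm, hn']
      rw [h1, h2]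
      apply Real.smoothTransition.monotone
      push_cast
      have : (0 : ℝ) ≤ r := Nat.cast_nonneg _
      nlinarith

private theorem sg_contDiff (r n i m : ℕ) : ContDiff ℝ 1 (sg r n i m) := by
  unfold sg
  by_cases hm : m = 0
  · simp only [hm, if_true]; exact contDiff_const
  · by_cases hn : n ≤ m
    · simp only [hm, hn, if_true, if_false]; exact contDiff_const
    · simp only [hm, hn, if_false]
      exact (Real.smoothTransition.contDiff (n := 1)).comp (by fun_prop)

/-- the profile -/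
private noncomputable def RR (r n i j : ℕ) (s : ℝ) : ℝ := sg r n i j s - sg r n i (j + 1) s

private theorem RR_nonneg (r n i j : ℕ) (s : ℝ) : 0 ≤ RR r n i j s :=
  sub_nonneg.2 (sg_anti r n i j s)

private theorem RR_le_one (r n i j : ℕ) (s : ℝ) : RR r n i j s ≤ 1 := by
  have h1 := sg_le_one r n i j s
  have h2 := sg_nonneg r n i (j + 1) s
  unfold RR; linarith

private theorem RR_sum {r n : ℕ} (hn : 0 < n) (i : ℕ) (s : ℝ) :
    ∑ j ∈ range n, RR r n i j s = 1 := by
  unfold RR
  rw [Finset.sum_range_sub']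
  have h1 : sg r n i 0 s = 1 := by simp [sg]
  have h2 : sg r n i n s = 0 := by simp [sg, hn.ne']
  rw [h1, h2]; ring

private theorem RR_contDiff (r n i j : ℕ) : ContDiff ℝ 1 (RR r n i j) :=
  (sg_contDiff r n i j).sub (sg_contDiff r n i (j + 1))

/-- where the profile is nonzero -/
private theorem RR_supp {r n i j : ℕ} (hr : 0 < r) (hi : i < r) (hj : j < n) {s : ℝ}
    (hs0 : -1 ≤ s) (hs1 : s ≤ 1) (h : RR r n i j s ≠ 0) :
    |s - (-1 + 2 * (j : ℝ) / n)| ≤ 4 / n := by
  have hn : (0 : ℝ) < n := by exact_mod_cast (by omega : 0 < n)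
  have hr' : (0 : ℝ) < r := by exact_mod_cast hr
  have hi' : (i : ℝ) + 1 ≤ r := by exact_mod_cast hi
  have hi0 : (0 : ℝ) ≤ i := Nat.cast_nonneg _
  have hj' : (j : ℝ) + 1 ≤ n := by exact_mod_cast hj
  -- lower bound
  have hlow : 2 * (j : ℝ) / n ≤ s + 1 := by
    by_cases hj0 : j = 0
    · rw [hj0]; simp; linarith
    · by_contra hcon
      push Not at hcon
      apply h
      have h1 : sg r n i j s = 0 := by
        have hnj : ¬ n ≤ j := by omega
        simp only [sg, hj0, hnj, if_false]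
        apply Real.smoothTransition.zero_of_nonpos
        rw [lt_div_iff₀ hn] at hcon
        have : (s + 1) * n * r ≤ 2 * j * r := by gcongr
        nlinarith
      have h2 := sg_anti r n i j s
      have h3 := sg_nonneg r n i (j + 1) s
      unfold RR
      linarith
  have hup : s + 1 ≤ 2 * (j : ℝ) / n + 4 / n := by
    by_cases hjn : n ≤ j + 1
    · have h1 : (n : ℝ) ≤ j + 1 := by exact_mod_cast hjn
      have h2 : (2 : ℝ) ≤ 2 * (j : ℝ) / n + 4 / n := by
        rw [← add_div, le_div_iff₀ hn]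
        linarith
      linarith
    · by_contra hcon
      push Not at hcon
      apply h
      have h1 : sg r n i (j + 1) s = 1 := by
        have hj1 : ¬ j + 1 = 0 := by omega
        simp only [sg, hj1, hjn, if_false]
        apply Real.smoothTransition.one_of_one_le
        rw [← add_div, div_lt_iff₀ hn] at hcon
        have h4 : (2 * (j : ℝ) + 4) * r ≤ (s + 1) * n * r := by gcongr
        push_cast
        nlinarith
      have h2 := sg_anti r n i j s
      have h3 := sg_le_one r n i j s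
      unfold RR
      linarith
  rw [abs_le]
  constructor
  · have : (0 : ℝ) ≤ 4 / n := by positivity
    linarith
  · linarith

/-- for all but one `i` the profile is `0/1` valued -/
private def Bad (r n i : ℕ) (s : ℝ) : Prop :=
  ∃ m : ℕ, 0 < (s + 1) * n * r / 2 - ((r : ℝ) * m + i) ∧
    (s + 1) * n * r / 2 - ((r : ℝ) * m + i) < 1

private theorem bad_unique {r n i i' : ℕ} (hi : i < r) (hi' : i' < r) {s : ℝ}
    (h : Bad r n i s) (h' : Bad r n i' s) : i = i' := by
  obtain ⟨m, h1, h2⟩ := h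
  obtain ⟨m', h1', h2'⟩ := h'
  have e1 : ⌊(s + 1) * n * r / 2⌋ = ((r * m + i : ℕ) : ℤ) := by
    rw [Int.floor_eq_iff]
    push_cast
    constructor <;> linarith
  have e2 : ⌊(s + 1) * n * r / 2⌋ = ((r * m' + i' : ℕ) : ℤ) := by
    rw [Int.floor_eq_iff]
    push_cast
    constructor <;> linarith
  have e3 : r * m + i = r * m' + i' := by
    have := e1.symm.trans e2
    exact_mod_cast this
  have e4 : (r * m + i) % r = (r * m' + i') % r := by rw [e3]
  rwa [Nat.mul_add_mod, Nat.mul_add_mod, Nat.mod_eq_of_lt hi, Nat.mod_eq_of_lt hi'] at e4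

private theorem sg_zero_one {r n i : ℕ} {s : ℝ} (h : ¬ Bad r n i s) (m : ℕ) :
    sg r n i m s = 0 ∨ sg r n i m s = 1 := by
  unfold sg
  split_ifs
  · exact Or.inr rfl
  · exact Or.inl rfl
  · by_cases h1 : 0 < (s + 1) * n * r / 2 - ((r : ℝ) * m + i)
    · right
      apply Real.smoothTransition.one_of_one_le
      by_contra h2
      push Not at h2
      exact h ⟨m, h1, h2⟩
    · left
      exact Real.smoothTransition.zero_of_nonpos (not_lt.1 h1)

private theorem RR_sq_good {r n i : ℕ} (hn : 0 < n) {s : ℝ} (h : ¬ Bad r n i s) :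
    ∑ j ∈ range n, RR r n i j s ^ 2 = 1 := by
  rw [← RR_sum (r := r) hn i s]
  refine Finset.sum_congr rfl fun j _ => ?_
  have h0 := RR_nonneg r n i j s
  have h1 := RR_le_one r n i j s
  rcases sg_zero_one h j with h2 | h2 <;> rcases sg_zero_one h (j + 1) with h3 | h3 <;>
    simp only [RR, h2, h3] at * <;> norm_num at *

private theorem RR_sq {r n : ℕ} (hn : 0 < n) (s : ℝ) :
    (r : ℝ) - 1 ≤ ∑ i ∈ range r, ∑ j ∈ range n, RR r n i j s ^ 2 := by
  have hnn : ∀ i, 0 ≤ ∑ j ∈ range n, RR r n i j s ^ 2 := fun i =>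
    Finset.sum_nonneg fun j _ => sq_nonneg _
  by_cases hb : ∃ i0 ∈ range r, Bad r n i0 s
  · obtain ⟨i0, hi0, hb0⟩ := hb
    rw [← Finset.add_sum_erase _ _ hi0]
    have h1 : ∑ i ∈ (range r).erase i0, ∑ j ∈ range n, RR r n i j s ^ 2
        = ∑ i ∈ (range r).erase i0, (1 : ℝ) := by
      refine Finset.sum_congr rfl fun i hi => RR_sq_good hn fun hb => ?_
      rw [Finset.mem_erase] at hi
      exact hi.1 (bad_unique (Finset.mem_range.1 hi.2) (Finset.mem_range.1 hi0) hb hb0)
    rw [h1, Finset.sum_const, Finset.card_erase_of_mem hi0, Finset.card_range, nsmul_eq_mul,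
      mul_one]
    have hr : 1 ≤ r := by
      have := Finset.mem_range.1 hi0
      omega
    rw [Nat.cast_sub hr]
    have := hnn i0
    push_cast
    linarith
  · push Not at hb
    rw [Finset.sum_congr rfl fun i hi => RR_sq_good hn (hb i hi)]
    simp

/-- a bound for the derivatives of the profile -/
private theorem exists_DD (r n : ℕ) : ∃ D : ℝ, 0 < D ∧ ∀ s : ℝ, -1 ≤ s → s ≤ 1 →
    ∑ i ∈ range r, ∑ j ∈ range n, |deriv (RR r n i j) s| ≤ D := by
  have hc : Continuous fun s : ℝ => ∑ i ∈ range r, ∑ j ∈ range n, |deriv (RR r n i j) s| := by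
    refine continuous_finsetSum _ fun i _ => continuous_finsetSum _ fun j _ => ?_
    exact ((RR_contDiff r n i j).continuous_deriv le_rfl).abs
  obtain ⟨C, hC⟩ := (isCompact_Icc (a := (-1 : ℝ)) (b := 1)).bddAbove_image hc.continuousOn
  refine ⟨max C 1, lt_of_lt_of_le one_pos (le_max_right _ _), fun s h0 h1 => ?_⟩
  exact (hC ⟨s, ⟨h0, h1⟩, rfl⟩).trans (le_max_left _ _)

private noncomputable def DD (r n : ℕ) : ℝ := (exists_DD r n).choose

private theorem DD_pos (r n : ℕ) : 0 < DD r n := (exists_DD r n).choose_spec.1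

private theorem DD_bound (r n : ℕ) {s : ℝ} (h0 : -1 ≤ s) (h1 : s ≤ 1) :
    ∑ i ∈ range r, ∑ j ∈ range n, |deriv (RR r n i j) s| ≤ DD r n :=
  (exists_DD r n).choose_spec.2 s h0 h1

private noncomputable def ka (k : ℕ) : ℝ := (1 / 2) ^ k

private noncomputable def et : ℕ → ℝ
  | 0 => 1
  | (k + 1) => min (et k / 128)
      (((2 ^ (k + 2) : ℕ) : ℝ) * ka k * et k / (4 * DD (2 ^ (k + 2)) (2 ^ (k + 3))))

private theorem ka_pos (k : ℕ) : 0 < ka k := by unfold ka; positivity

private theorem et_pos (k : ℕ) : 0 < et k := by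
  induction k with
  | zero => simp [et]
  | succ k ih =>
    rw [et]
    have h1 := ka_pos k
    have h2 := DD_pos (2 ^ (k + 2)) (2 ^ (k + 3))
    refine lt_min (by positivity) (by positivity)

private noncomputable def par : Par where
  r := fun k => 2 ^ (k + 2)
  n := fun k => 2 ^ (k + 3)
  lab := fun k j => if j < 2 ^ (k + 3) then -1 + 2 * (j : ℝ) / ((2 ^ (k + 3) : ℕ) : ℝ) else 0
  κ := ka
  r_pos := fun k => by positivity
  n_pos := fun k => by positivity
  lab_le := by
    intro k j
    split_ifs with h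
    · have hn : (0 : ℝ) < ((2 ^ (k + 3) : ℕ) : ℝ) := by positivity
      have hj : (j : ℝ) + 1 ≤ ((2 ^ (k + 3) : ℕ) : ℝ) := by exact_mod_cast h
      have h1 : 0 ≤ 2 * (j : ℝ) / ((2 ^ (k + 3) : ℕ) : ℝ) := by positivity
      have h2 : 2 * (j : ℝ) / ((2 ^ (k + 3) : ℕ) : ℝ) ≤ 2 := by
        rw [div_le_iff₀ hn]; linarith
      rw [abs_le]
      constructor <;> linarith
    · simp
  κ_pos := ka_pos
  κ_le := fun k => pow_le_one₀ (by norm_num) (by norm_num)
  κ_lim := tendsto_pow_atTop_nhds_zero_of_lt_one (by norm_num) (by norm_num)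

private theorem four_div (k : ℕ) : (4 : ℝ) / ((2 ^ (k + 3) : ℕ) : ℝ) = ka k / 2 := by
  unfold ka
  push_cast
  rw [pow_add, one_div, inv_pow]
  field_simp
  norm_num

theorem exists_stage_uc : ∃ (P : Par) (S : Stage P),
    (∀ k i j, BUC (S.Q k i j)) ∧ ∀ k i j, BUC (S.Q' k i j) := by
  refine ⟨par, {
    η := et
    Q := fun k i j t => RR (2 ^ (k + 2)) (2 ^ (k + 3)) i j (Real.cos (t / et k))
    Q' := fun k i j t => deriv (RR (2 ^ (k + 2)) (2 ^ (k + 3)) i j) (Real.cos (t / et k)) *
      (-Real.sin (t / et k) * (1 / et k))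
    η_pos := et_pos
    η_succ := ?_
    Q_nonneg := fun k i j t => RR_nonneg _ _ _ _ _
    Q_sum := ?_
    Q_deriv := ?_
    Q_sq := ?_
    Q_lab := ?_
    Q_small := ?_
    prod_r := ?_ }, ?_, ?_⟩
  · intro k
    have : et (k + 1) ≤ et k / 128 := by rw [et]; exact min_le_left _ _
    linarith
  · intro k i t _
    exact RR_sum (Nat.two_pow_pos (k + 3)) i _
  · intro k i j t
    have h1 : HasDerivAt (RR (2 ^ (k + 2)) (2 ^ (k + 3)) i j)
        (deriv (RR (2 ^ (k + 2)) (2 ^ (k + 3)) i j) (Real.cos (t / et k)))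
        (Real.cos (t / et k)) :=
      ((RR_contDiff _ _ i j).differentiable one_ne_zero _).hasDerivAt
    have h2 : HasDerivAt (fun t => Real.cos (t / et k)) (-Real.sin (t / et k) * (1 / et k)) t :=
      ((hasDerivAt_id t).div_const (et k)).cos
    exact h1.comp t h2
  · intro k t
    exact RR_sq (Nat.two_pow_pos (k + 3)) _
  · intro k i t hi
    have hs0 := Real.neg_one_le_cos (t / et k)
    have hs1 := Real.cos_le_one (t / et k)
    set s := Real.cos (t / et k) with hs
    have hn : 0 < 2 ^ (k + 3) := by positivity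
    have h1 : s - ∑ j ∈ range (2 ^ (k + 3)), par.lab k j * RR (2 ^ (k + 2)) (2 ^ (k + 3)) i j s
        = ∑ j ∈ range (2 ^ (k + 3)), (s - par.lab k j) *
            RR (2 ^ (k + 2)) (2 ^ (k + 3)) i j s := by
      simp only [sub_mul, Finset.sum_sub_distrib]
      rw [← Finset.mul_sum, RR_sum hn i s, mul_one]
    show |s - ∑ j ∈ range (2 ^ (k + 3)),
      par.lab k j * RR (2 ^ (k + 2)) (2 ^ (k + 3)) i j s| ≤ ka k / 2
    rw [h1]
    calc |∑ j ∈ range (2 ^ (k + 3)), (s - par.lab k j) *
            RR (2 ^ (k + 2)) (2 ^ (k + 3)) i j s|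
        ≤ ∑ j ∈ range (2 ^ (k + 3)), |(s - par.lab k j) *
            RR (2 ^ (k + 2)) (2 ^ (k + 3)) i j s| := Finset.abs_sum_le_sum_abs _ _
      _ ≤ ∑ j ∈ range (2 ^ (k + 3)), ka k / 2 * RR (2 ^ (k + 2)) (2 ^ (k + 3)) i j s := by
          refine Finset.sum_le_sum fun j hj => ?_
          rw [abs_mul, abs_of_nonneg (RR_nonneg _ _ _ _ _)]
          by_cases h : RR (2 ^ (k + 2)) (2 ^ (k + 3)) i j s = 0
          · rw [h]; simp
          · refine mul_le_mul_of_nonneg_right ?_ (RR_nonneg _ _ _ _ _)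
            rw [← four_div]
            have hj' := Finset.mem_range.1 hj
            have hlab : par.lab k j = -1 + 2 * (j : ℝ) / ((2 ^ (k + 3) : ℕ) : ℝ) := by
              show (if j < 2 ^ (k + 3) then _ else _) = _
              rw [if_pos hj']
            rw [hlab]
            exact RR_supp (Nat.two_pow_pos (k + 2)) hi hj' hs0 hs1 h
      _ = ka k / 2 := by rw [← Finset.mul_sum, RR_sum hn i s, mul_one]
  · intro k t
    have hs0 := Real.neg_one_le_cos (t / et k)
    have hs1 := Real.cos_le_one (t / et k)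
    have he := et_pos k
    have hD := DD_pos (2 ^ (k + 2)) (2 ^ (k + 3))
    have hk := ka_pos k
    have h1 : ∑ i ∈ range (2 ^ (k + 2)), ∑ j ∈ range (2 ^ (k + 3)),
        |deriv (RR (2 ^ (k + 2)) (2 ^ (k + 3)) i j) (Real.cos (t / et k)) *
          (-Real.sin (t / et k) * (1 / et k))|
        ≤ DD (2 ^ (k + 2)) (2 ^ (k + 3)) * (1 / et k) := by
      calc _ ≤ ∑ i ∈ range (2 ^ (k + 2)), ∑ j ∈ range (2 ^ (k + 3)),
            |deriv (RR (2 ^ (k + 2)) (2 ^ (k + 3)) i j) (Real.cos (t / et k))| * (1 / et k) := by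
            refine Finset.sum_le_sum fun i _ => Finset.sum_le_sum fun j _ => ?_
            rw [abs_mul]
            refine mul_le_mul_of_nonneg_left ?_ (abs_nonneg _)
            rw [abs_mul, abs_neg, abs_of_pos (by positivity : 0 < 1 / et k)]
            have := Real.abs_sin_le_one (t / et k)
            have h3 : 0 < 1 / et k := by positivity
            nlinarith
        _ = (∑ i ∈ range (2 ^ (k + 2)), ∑ j ∈ range (2 ^ (k + 3)),
            |deriv (RR (2 ^ (k + 2)) (2 ^ (k + 3)) i j) (Real.cos (t / et k))|) * (1 / et k) := by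
            simp only [Finset.sum_mul]
        _ ≤ _ := by
            refine mul_le_mul_of_nonneg_right (DD_bound _ _ hs0 hs1) (by positivity)
    have h2 : et (k + 1) ≤ ((2 ^ (k + 2) : ℕ) : ℝ) * ka k * et k /
        (4 * DD (2 ^ (k + 2)) (2 ^ (k + 3))) := by rw [et]; exact min_le_right _ _
    have h3 := et_pos (k + 1)
    show (∑ i ∈ range (2 ^ (k + 2)), ∑ j ∈ range (2 ^ (k + 3)),
        |deriv (RR (2 ^ (k + 2)) (2 ^ (k + 3)) i j) (Real.cos (t / et k)) *
          (-Real.sin (t / et k) * (1 / et k))|) * (2 * et (k + 1))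
      ≤ ((2 ^ (k + 2) : ℕ) : ℝ) * ka k / 2
    calc _ ≤ (DD (2 ^ (k + 2)) (2 ^ (k + 3)) * (1 / et k)) *
          (2 * (((2 ^ (k + 2) : ℕ) : ℝ) * ka k * et k /
            (4 * DD (2 ^ (k + 2)) (2 ^ (k + 3))))) := by
          refine mul_le_mul h1 (by linarith) (by positivity) (by positivity)
      _ = _ := by
          field_simp
          norm_num
  · intro K
    have key : ∀ K, (1 : ℝ) / 2 + (1 / 2) ^ (K + 1) ≤
        ∏ k ∈ range K, (1 - 1 / ((2 ^ (k + 2) : ℕ) : ℝ)) := by
      intro K
      induction K with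
      | zero => norm_num
      | succ K ih =>
        rw [Finset.prod_range_succ]
        have e1 : (1 : ℝ) / ((2 ^ (K + 2) : ℕ) : ℝ) = (1 / 2) ^ (K + 1) / 2 := by
          push_cast
          rw [one_div_pow, pow_succ]
          field_simp
        have e2 : ((1 : ℝ) / 2) ^ (K + 1 + 1) = (1 / 2) ^ (K + 1) / 2 := by
          rw [pow_succ (1 / 2 : ℝ) (K + 1)]; ring
        rw [e1, e2]
        set x : ℝ := (1 / 2) ^ (K + 1) with hx
        have hx0 : 0 < x := by positivity
        have hx1 : x ≤ 1 / 2 := by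
          rw [hx, pow_succ]
          have : ((1 : ℝ) / 2) ^ K ≤ 1 := pow_le_one₀ (by norm_num) (by norm_num)
          linarith
        have h5 : (1 / 2 + x) * (1 - x / 2) ≤
            (∏ k ∈ range K, (1 - 1 / ((2 ^ (k + 2) : ℕ) : ℝ))) * (1 - x / 2) :=
          mul_le_mul_of_nonneg_right ih (by linarith)
        nlinarith
    have h1 := key K
    have h2 : (0 : ℝ) < (1 / 2) ^ (K + 1) := by positivity
    show 1 / 2 ≤ ∏ k ∈ range K, (1 - 1 / ((2 ^ (k + 2) : ℕ) : ℝ))
    linarith
  · intro k i j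
    exact buc_cos (RR_contDiff _ _ i j).continuous (et k)
  · intro k i j
    have h1 := buc_cos (g := deriv (RR (2 ^ (k + 2)) (2 ^ (k + 3)) i j))
      ((RR_contDiff _ _ i j).continuous_deriv le_rfl) (et k)
    have h2 : BUC (fun t : ℝ => -Real.sin (t / et k) * (1 / et k)) := by
      have := (buc_sin (et k)).mul (BUC.const (-(1 / et k)))
      refine (congrArg BUC (funext fun t => ?_)).mp this
      ring
    exact h1.mul h2

end Pool.Agent.FF6Rough
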