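import Pool.Agent.MPff6db8.Fun
import Pool.Agent.FF6Rough.StageC

/-! MP_ff6db8_an, own theorem. Uniform continuity of the derivative. -/

set_option autoImplicit false

namespace Pool.Agent.FF6Rough

open Finset Pool.Agent.MPff6db8

variable {X : Type} [PseudoMetricSpace X]

theorem PP_buc {P : Par} (S : Stage P) (hQ : ∀ k i j, BUC (S.Q k i j)) (zz : X → Nd → ℝ)
    (hz : ∀ ν, P.Val ν → UniformContinuous fun x => zz x ν) :
    ∀ k, ∀ ν ∈ P.Lev k, BUC fun x => PP S (zz x) ν := by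
  intro k
  induction k with
  | zero =>
    intro ν hν
    have h : ν = ([], []) := by
      have := (P.mem_Lev).1 hν
      simp only [Par.Col, Par.His, mem_singleton] at this
      exact Prod.ext this.1 this.2
    subst h
    simp only [PP_root]
    exact BUC.const 1
  | succ k ih =>
    intro ν hν
    obtain ⟨i, j, c, s, rfl, hi, hj, hcs⟩ := exists_child_of_mem_Lev hν
    have h1 := ih _ hcs
    have h2 : BUC fun x => S.Q k i j (zz x (c, s)) := (hQ k i j).comp (hz _ (val_of_mem_Lev hcs))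
    have := h1.mul h2
    refine (congrArg BUC (funext fun x => ?_)).mp this
    rw [PP_child S (zz x) hcs hi hj]

/-- averages of small numbers are small -/
theorem avg_small {P : Par} (S : Stage P) (k : ℕ) (t C : ℝ) (hC : 0 ≤ C)
    (g : ℕ → ℕ → ℝ) (hg : ∀ i j, i < P.r k → j < P.n k → |g i j| ≤ C) :
    |(1 / (P.r k : ℝ)) * ∑ i ∈ range (P.r k), ∑ j ∈ range (P.n k), S.Q k i j t * g i j| ≤ C := by
  have hr : (0 : ℝ) < P.r k := by exact_mod_cast P.r_pos k
  rw [abs_mul, abs_of_pos (by positivity : (0 : ℝ) < 1 / (P.r k : ℝ))]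
  have h1 : |∑ i ∈ range (P.r k), ∑ j ∈ range (P.n k), S.Q k i j t * g i j| ≤ P.r k * C := by
    calc _ ≤ ∑ i ∈ range (P.r k), |∑ j ∈ range (P.n k), S.Q k i j t * g i j| :=
          Finset.abs_sum_le_sum_abs _ _
      _ ≤ ∑ i ∈ range (P.r k), C := by
          refine Finset.sum_le_sum fun i hi => ?_
          calc _ ≤ ∑ j ∈ range (P.n k), |S.Q k i j t * g i j| := Finset.abs_sum_le_sum_abs _ _
            _ ≤ ∑ j ∈ range (P.n k), S.Q k i j t * C := by
                refine Finset.sum_le_sum fun j hj => ?_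
                rw [abs_mul, abs_of_nonneg (S.Q_nonneg k i j t)]
                exact mul_le_mul_of_nonneg_left (hg i j (Finset.mem_range.1 hi)
                  (Finset.mem_range.1 hj)) (S.Q_nonneg k i j t)
            _ = C := by
                rw [← Finset.sum_mul, S.Q_sum k i t (Finset.mem_range.1 hi), one_mul]
      _ = P.r k * C := by rw [Finset.sum_const, Finset.card_range, nsmul_eq_mul]
  calc (1 / (P.r k : ℝ)) * _ ≤ (1 / (P.r k : ℝ)) * (P.r k * C) := by gcongr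
    _ = C := by field_simp

theorem Phi_approx {P : Par} (S : Stage P) (Φ : ℕ → List ℕ → List ℕ → (Nd → ℝ) → ℝ)
    (hΦ : IsLim S Φ) (hQ : ∀ k i j, BUC (S.Q k i j)) (zz : X → Nd → ℝ)
    (hz : ∀ ν, P.Val ν → UniformContinuous fun x => zz x ν) :
    ∀ d k : ℕ, ∀ ν ∈ P.Lev k, ∃ g : X → ℝ, BUC g ∧
      ∀ x, |Φ k ν.1 ν.2 (zz x) - g x| ≤ 2 * S.η (k + d) := by
  intro d
  induction d with
  | zero =>
    intro k ν _
    exact ⟨fun _ => 0, BUC.const 0, fun x => by simpa using hΦ.bound k ν.1 ν.2 (zz x)⟩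
  | succ d ih =>
    intro k ν hν
    have hch : ∀ i j, ∃ g : X → ℝ, BUC g ∧ (i < P.r k → j < P.n k →
        ∀ x, |Φ (k + 1) (i :: ν.1) (j :: ν.2) (zz x) - g x| ≤ 2 * S.η (k + 1 + d)) := by
      intro i j
      by_cases hij : i < P.r k ∧ j < P.n k
      · obtain ⟨g, hg, hg'⟩ := ih (k + 1) (i :: ν.1, j :: ν.2)
          ((P.mem_Lev_child (ν := ν)).2 ⟨hij.1, hij.2, hν⟩)
        exact ⟨g, hg, fun _ _ => hg'⟩
      · exact ⟨fun _ => 0, BUC.const 0, fun h1 h2 => absurd ⟨h1, h2⟩ hij⟩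
    choose g hg hg' using hch
    have hv := val_of_mem_Lev hν
    refine ⟨fun x => S.η k * Real.sin (zz x ν / S.η k) +
      (1 / (P.r k : ℝ)) * ∑ i ∈ range (P.r k), ∑ j ∈ range (P.n k),
        S.Q k i j (zz x ν) * g i j x, ?_, fun x => ?_⟩
    · refine ((BUC.const (S.η k)).mul ((buc_sin (S.η k)).comp (hz ν hv))).add
        ((BUC.const _).mul (BUC.sum _ _ fun i _ => BUC.sum _ _ fun j _ => ?_))
      exact ((hQ k i j).comp (hz ν hv)).mul (hg i j)
    · rw [hΦ.rec_eq k ν.1 ν.2 (zz x)]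
      have e : S.η k * Real.sin (zz x (ν.1, ν.2) / S.η k) +
          (1 / (P.r k : ℝ)) * ∑ i ∈ range (P.r k), ∑ j ∈ range (P.n k),
            S.Q k i j (zz x (ν.1, ν.2)) * Φ (k + 1) (i :: ν.1) (j :: ν.2) (zz x) -
          (S.η k * Real.sin (zz x ν / S.η k) +
          (1 / (P.r k : ℝ)) * ∑ i ∈ range (P.r k), ∑ j ∈ range (P.n k),
            S.Q k i j (zz x ν) * g i j x) =
          (1 / (P.r k : ℝ)) * ∑ i ∈ range (P.r k), ∑ j ∈ range (P.n k),
            S.Q k i j (zz x ν) * (Φ (k + 1) (i :: ν.1) (j :: ν.2) (zz x) - g i j x) := by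
        simp only [mul_sub, Finset.sum_sub_distrib, Prod.mk.eta]
        ring
      rw [e, show k + (d + 1) = k + 1 + d by ring]
      have := S.η_pos (k + 1 + d)
      exact avg_small S k _ _ (by positivity) _ fun i j hi hj => hg' i j hi hj x

theorem Phi_buc {P : Par} (S : Stage P) (Φ : ℕ → List ℕ → List ℕ → (Nd → ℝ) → ℝ)
    (hΦ : IsLim S Φ) (hQ : ∀ k i j, BUC (S.Q k i j)) (zz : X → Nd → ℝ)
    (hz : ∀ ν, P.Val ν → UniformContinuous fun x => zz x ν) (k : ℕ) (ν : Nd) (hν : ν ∈ P.Lev k) :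
    BUC fun x => Φ k ν.1 ν.2 (zz x) := by
  refine ⟨⟨_, fun x => hΦ.bound k ν.1 ν.2 (zz x)⟩, uc_of_approx fun ε hε => ?_⟩
  have ht : Filter.Tendsto (fun d => 2 * S.η (k + d)) Filter.atTop (nhds 0) := by
    have h1 := (S.eta_tendsto).const_mul 2
    rw [mul_zero] at h1
    have h2 := h1.comp (Filter.tendsto_add_atTop_nat k)
    refine h2.congr fun d => ?_
    simp [add_comm]
  obtain ⟨d, hd⟩ := (ht.eventually (gt_mem_nhds hε)).exists
  obtain ⟨g, hg, hg'⟩ := Phi_approx S Φ hΦ hQ zz hz d k ν hν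
  exact ⟨g, hg.2, fun x => (hg' x).trans hd.le⟩

theorem BB_buc {P : Par} (S : Stage P) (Φ : ℕ → List ℕ → List ℕ → (Nd → ℝ) → ℝ)
    (hΦ : IsLim S Φ) (hQ : ∀ k i j, BUC (S.Q k i j)) (hQ' : ∀ k i j, BUC (S.Q' k i j))
    (zz : X → Nd → ℝ) (hz : ∀ ν, P.Val ν → UniformContinuous fun x => zz x ν)
    (ν : Nd) (hν : P.Val ν) : BUC fun x => BB S Φ (zz x) ν := by
  have hl : ν ∈ P.Lev ν.1.length := hν
  unfold BB
  refine (PP_buc S hQ zz hz _ ν hl).mul (((buc_cos continuous_id _).comp (hz ν hν)).add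
    ((BUC.const _).mul (BUC.sum _ _ fun i hi => BUC.sum _ _ fun j hj => ?_)))
  refine ((hQ' _ i j).comp (hz ν hν)).mul ?_
  exact Phi_buc S Φ hΦ hQ zz hz (ν.1.length + 1) (i :: ν.1, j :: ν.2)
    ((P.mem_Lev_child (ν := ν)).2 ⟨Finset.mem_range.1 hi, Finset.mem_range.1 hj, hl⟩)

theorem pair_buc {P : Par} (S : Stage P) (Φ : ℕ → List ℕ → List ℕ → (Nd → ℝ) → ℝ)
    (hΦ : IsLim S Φ) (hQ : ∀ k i j, BUC (S.Q k i j)) (hQ' : ∀ k i j, BUC (S.Q' k i j))
    (zz : X → Nd → ℝ) (hz : ∀ ν, P.Val ν → UniformContinuous fun x => zz x ν)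
    (h : Nd →₀ ℝ) : BUC fun x => P.pair (BB S Φ (zz x)) h := by
  unfold Par.pair Finsupp.sum
  refine BUC.sum _ _ fun ν _ => ?_
  by_cases hν : P.Val ν
  · exact ((BUC.const _).mul (BB_buc S Φ hΦ hQ hQ' zz hz ν hν)).mul (BUC.const _)
  · have : P.wt ν = 0 := by unfold Par.wt; rw [if_neg hν]
    simp only [this, zero_mul]
    exact BUC.const 0

end Pool.Agent.FF6Rough
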